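import Pool.Agent.H.MP_7d3ffc_al.DN.Mn

/-!
# Module DN/Bt: groups between the special and the general linear group
-/

namespace Pool.Agent.H.MP_7d3ffc_al.DN

open Matrix Matrix.SpecialLinearGroup Pool.Agent.H.MP_7d3ffc_al Pool.Agent.H.MP_7d3ffc_al.DC Module

variable {n : ℕ} {F : Type*} [Field F] [Finite F]

theorem Bt_range (g : GL (Fin n) F) (h : g.val.det = 1) :
    ∃ s : SpecialLinearGroup (Fin n) F, toGL s = g :=
  ⟨⟨g.val, h⟩, Units.ext rfl⟩

theorem between {p : ℕ} [Fact p.Prime] [CharP F p] (H : Subgroup (GL (Fin n) F))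
    (hH : ∀ s : SpecialLinearGroup (Fin n) F, toGL s ∈ H)
    {V : Type*} [AddCommGroup V] [Module ℂ V] [FiniteDimensional ℂ V]
    (P : Sylow p H) (ρ : Representation ℂ H V) (hρ : ρ.IsIrreducible) (hd : p ∣ finrank ℂ V)
    (hne : (Lin ρ (P : Subgroup H)).Nonempty) : p ≤ (Lin ρ (P : Subgroup H)).ncard := by
  have hp : p.Prime := Fact.out
  let π : SpecialLinearGroup (Fin n) F →* H := toGL.codRestrict H hH
  let δ : H →* Fˣ := Matrix.GeneralLinearGroup.det.comp H.subtype
  have hker : π.range = δ.ker := by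
    ext h
    rw [MonoidHom.mem_ker]
    constructor
    · rintro ⟨s, rfl⟩
      refine Units.ext ?_
      exact s.2
    · intro hh
      have h1 : (h : GL (Fin n) F).val.det = 1 := congrArg Units.val hh
      obtain ⟨s, hs⟩ := Bt_range _ h1
      exact ⟨s, Subtype.ext hs⟩
  have hfin : Fintype F := Fintype.ofFinite F
  have hidx : π.range.index ∣ Nat.card F - 1 := by
    rw [hker, Subgroup.index_ker, ← Nat.card_units]
    exact Subgroup.card_subgroup_dvd_card _
  have hpF : p ∣ Nat.card F := by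
    obtain ⟨m, _, hm⟩ := FiniteField.card F p
    rw [Nat.card_eq_fintype_card, hm]
    exact dvd_pow_self p m.pos.ne'
  have hF1 : 1 ≤ Nat.card F := Nat.card_pos
  refine main π (by rw [hker]; exact MonoidHom.normal_ker δ) (fun h => ?_) P ρ hρ hd hne
  have h1 : p ∣ Nat.card F - 1 := h.trans hidx
  have h2 : p ∣ Nat.card F - (Nat.card F - 1) := Nat.dvd_sub hpF h1
  rw [Nat.sub_sub_self hF1] at h2
  exact hp.one_lt.ne' (Nat.dvd_one.1 h2)

end Pool.Agent.H.MP_7d3ffc_al.DN
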