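import Pool.Agent.H.MP_7d3ffc_al.DC.Main
import Pool.Agent.H.MP_7d3ffc_al.DC.PiD
import Pool.Agent.H.MP_7d3ffc_al.DF.Fin2

/-!
# Module DN/Mn: the defining characteristic, type A, all finite fields
-/

namespace Pool.Agent.H.MP_7d3ffc_al.DN

open Matrix Matrix.SpecialLinearGroup Pool.Agent.H.MP_7d3ffc_al Pool.Agent.H.MP_7d3ffc_al.DC Module
open scoped Pointwise

variable {n : ℕ} {F : Type*} [Field F] [Finite F]

theorem Main_fixed {S : Type*} [Group S] {V : Type*} [AddCommGroup V] [Module ℂ V]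
    (ρ : Representation ℂ S V) (hρ : ρ.IsIrreducible) (v : V) (hv : v ≠ 0)
    (hfix : ∀ g, ρ g v = v) : finrank ℂ V = 1 := by
  let A : Subrepresentation ρ :=
    { toSubmodule := ℂ ∙ v
      apply_mem_toSubmodule := fun g x hx => by
        obtain ⟨a, rfl⟩ := Submodule.mem_span_singleton.1 hx
        rw [map_smul, hfix]
        exact Submodule.smul_mem _ _ (Submodule.mem_span_singleton_self v) }
  have hA : v ∈ A.toSubmodule := Submodule.mem_span_singleton_self v
  rcases hρ.eq_bot_or_eq_top A with h | h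
  · rw [h] at hA
    exact absurd ((Submodule.mem_bot ℂ).1 hA) hv
  · have h1 : A.toSubmodule = ⊤ := by rw [h]; rfl
    rw [← finrank_top ℂ V, ← h1]
    exact finrank_span_singleton hv

theorem slmain {p : ℕ} [Fact p.Prime] [CharP F p] (hn : 3 ≤ n)
    {V : Type*} [AddCommGroup V] [Module ℂ V] [FiniteDimensional ℂ V]
    (ρ : Representation ℂ (SpecialLinearGroup (Fin n) F) V) (hρ : ρ.IsIrreducible)
    (hd : p ∣ finrank ℂ V) (hne : (Lin ρ (UT n F)).Nonempty) :
    p ≤ (Lin ρ (UT n F)).ncard := by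
  classical
  have hfix : ∀ v : V, (∀ g, ρ g v = v) → v = 0 := by
    intro v hv
    by_contra hv0
    rw [Main_fixed ρ hρ v hv0 hv] at hd
    exact (Fact.out : p.Prime).one_lt.ne' (Nat.dvd_one.1 hd)
  by_cases hq2 : Nat.card F = 2
  · obtain ⟨m, hmp, hm⟩ : ∃ m : ℕ, m ≠ 0 ∧ Nat.card F = p ^ m := by
      have hfin : Fintype F := Fintype.ofFinite F
      obtain ⟨m, _, hm⟩ := FiniteField.card F p
      exact ⟨m, m.pos.ne', by rw [Nat.card_eq_fintype_card, hm]⟩
    have hp2 : p = 2 := by
      have h1 : p ∣ 2 := by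
        rw [← hq2, hm]
        exact dvd_pow_self p hmp
      exact (Nat.prime_dvd_prime_iff_eq Fact.out Nat.prime_two).1 h1
    rw [hp2] at hd ⊢
    exact DF.two_main hq2 (by omega) ρ hρ hd hne
  have hp : p.Prime := Fact.out
  obtain ⟨lam, hlam, hl1⟩ := exists_nontrivial (by omega : 2 ≤ n) ρ hfix hne
  obtain ⟨i, j, h, hs, hnt⟩ : ∃ (i j : Fin n) (h : i < j), (j : ℕ) = i + 1 ∧
      ∃ a : F, lam (el h a) ≠ 1 := by
    by_contra hcon
    push Not at hcon
    exact hl1 (lam_one lam fun i j h hs a => hcon i j h hs a)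
  obtain ⟨f, hf1, hf2, hf3, hf4⟩ := tor_one ρ hn hlam h hnt
  have hu : Nat.card Fˣ = Nat.card F - 1 := Nat.card_units F
  have hfin : Fintype F := Fintype.ofFinite F
  obtain ⟨m, hmp, hm⟩ := FiniteField.card F p
  rw [← Nat.card_eq_fintype_card] at hm
  by_cases hqp : Nat.card F = p
  · -- prime field
    have hp2 : p ≠ 2 := fun h0 => hq2 (hqp.trans h0)
    have hp3 : 3 ≤ p := by
      have := hp.two_le
      omega
    have h2F : (2 : F) ≠ 0 := by
      intro h0
      have h3 : p ∣ 2 := (CharP.cast_eq_zero_iff F p 2).1 (by exact_mod_cast h0)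
      exact hp2 ((Nat.prime_dvd_prime_iff_eq hp Nat.prime_two).1 h3)
    have key : 2 * (Nat.card F - 1) ≤ (Lin ρ (UT n F)).ncard → p ≤ (Lin ρ (UT n F)).ncard := by
      intro h0
      rw [hqp] at h0
      omega
    by_cases hone : ∀ (r s : Fin n) (h : r < s), (s : ℕ) = r + 1 → r ≠ i →
        ∀ a : F, lam (el h a) = 1
    · -- lam is supported on one simple root
      apply key
      -- it is enough to find a second type
      have fin : ∀ (i' j' : Fin n) (h' : i' < j'), (j' : ℕ) = i' + 1 → i' ≠ i →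
          ∀ mu ∈ Lin ρ (UT n F), (∃ a : F, mu (el h' a) ≠ 1) →
          (∀ (r s : Fin n) (h : r < s), (s : ℕ) = r + 1 → r ≠ i' → ∀ a : F, mu (el h a) = 1) →
          2 * (Nat.card F - 1) ≤ (Lin ρ (UT n F)).ncard := by
        intro i' j' h' hs' hii mu hmu hmnt hmone
        obtain ⟨g, hg1, hg2, hg3, hg4⟩ := tor_one ρ hn hmu h' hmnt
        have h5 := Main_inj_two (Lin ρ (UT n F)) f g hf1 hg1 hf2 hg2 (by
          intro s s' hss
          obtain ⟨a, ha⟩ := hf3 s
          exact ha (by rw [hss]; exact hg4 s' i j h (hmone i j h hs (Ne.symm hii)) a))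
        rw [hu] at h5
        omega
      obtain ⟨i', j', h', hs', hii⟩ : ∃ (i' j' : Fin n) (_ : i' < j'), (j' : ℕ) = i' + 1 ∧
          ((i' : ℕ) = i + 1 ∨ (i : ℕ) = i' + 1) := by
        by_cases hj : (j : ℕ) + 1 < n
        · exact ⟨j, ⟨j + 1, hj⟩, by rw [Fin.lt_def]; simp, rfl, Or.inl hs⟩
        · have hi : 1 ≤ (i : ℕ) := by
            have := j.2
            omega
          have hi' := i.2
          refine ⟨⟨i - 1, by omega⟩, i, ?_, ?_, Or.inr ?_⟩
          · rw [Fin.lt_def]
            simp only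
            omega
          · simp only
            omega
          · simp only
            omega
      obtain ⟨mu, hmu, hmnt, hmone⟩ := adj_char ρ h hs h' hs' hii hlam hnt hone
      refine fin i' j' h' hs' ?_ mu hmu hmnt hmone
      rintro rfl
      omega
    · -- two simple roots in the support
      push Not at hone
      obtain ⟨i', j', h', hs', hii, hnt'⟩ := hone
      rcases lt_or_gt_of_ne hii with h0 | h0
      · by_cases hex : Nat.card F = 3 → n = 4 → i = j'
        · exact key (tor_two ρ hn h2F hlam hex h' hs' h hs h0 hnt' hnt)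
        · push Not at hex
          obtain ⟨hc3, hn4, hne'⟩ := hex
          have hp3' : p = 3 := hqp.symm.trans hc3
          rw [hp3'] at hd ⊢
          exact Main_four ρ hn4 hc3 h2F hρ hd hlam h' hs' h hs h0 hne' hnt' hnt
      · by_cases hex : Nat.card F = 3 → n = 4 → i' = j
        · exact key (tor_two ρ hn h2F hlam hex h hs h' hs' h0 hnt hnt')
        · push Not at hex
          obtain ⟨hc3, hn4, hne'⟩ := hex
          have hp3' : p = 3 := hqp.symm.trans hc3
          rw [hp3'] at hd ⊢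
          exact Main_four ρ hn4 hc3 h2F hρ hd hlam h hs h' hs' h0 hne' hnt hnt'
  · have h5 := Main_inj (Lin ρ (UT n F)) f hf1 hf2
    rw [hu] at h5
    have h6 : 2 ≤ (m : ℕ) := by
      by_contra h7
      have h8 : (m : ℕ) = 1 := le_antisymm (Nat.lt_succ_iff.1 (not_le.1 h7)) m.pos
      rw [h8, pow_one] at hm
      exact hqp hm
    have h9 : p ^ 2 ≤ Nat.card F := by
      rw [hm]
      exact Nat.pow_le_pow_right hp.pos h6
    have h10 := hp.two_le
    have h11 : p + 1 ≤ p ^ 2 := by nlinarith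
    omega

/-- `π` surjective -/
theorem main_surj {p : ℕ} [Fact p.Prime] [CharP F p] {G : Type*} [Group G] [Finite G]
    (π : SpecialLinearGroup (Fin n) F →* G) (hπ : Function.Surjective π)
    {V : Type*} [AddCommGroup V] [Module ℂ V] [FiniteDimensional ℂ V]
    (P : Sylow p G) (ρ : Representation ℂ G V) (hρ : ρ.IsIrreducible) (hd : p ∣ finrank ℂ V)
    (hne : (Lin ρ (P : Subgroup G)).Nonempty) : p ≤ (Lin ρ (P : Subgroup G)).ncard := by
  have hU : IsPGroup p (UT n F) := UT_pgroup
  have hUi : ¬ p ∣ (UT n F).index := UT_index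
  obtain ⟨g, hg⟩ := sylow_eq π (by
    rw [MonoidHom.range_eq_top.2 hπ, Subgroup.index_top]
    exact fun h => (Fact.out : p.Prime).one_lt.ne' (Nat.dvd_one.1 h)) (UT n F) hU hUi P
  rcases le_or_gt n 2 with hn | hn
  · refine Main_abelian P ?_ ρ hρ hd hne
    rw [Subgroup.commutator_eq_bot_iff_le_centralizer, hg]
    rintro x hx y hy
    obtain ⟨x', hx', rfl⟩ := Subgroup.mem_smul_pointwise_iff_exists _ _ _ |>.1 hx
    obtain ⟨y', hy', rfl⟩ := Subgroup.mem_smul_pointwise_iff_exists _ _ _ |>.1 hy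
    obtain ⟨u, hu, rfl⟩ := Subgroup.mem_map.1 hx'
    obtain ⟨w, hw, rfl⟩ := Subgroup.mem_map.1 hy'
    rw [MulAut.smul_def, MulAut.smul_def, ← map_mul, ← map_mul, ← map_mul, ← map_mul,
      Main_comm hn u w hu hw]
  · have h1 := lin_map ρ π (UT n F)
    have h2 : (Lin ρ ((UT n F).map π)).Nonempty := nonempty_conj ρ g _ (by rwa [← hg])
    have h3 : p ≤ (Lin (ρ.comp π : Representation ℂ (SpecialLinearGroup (Fin n) F) V)
        (UT n F)).ncard :=
      slmain (by omega) _ (Main_comp π hπ ρ hρ _ fun _ => rfl) hd (h1.2 h2)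
    rw [hg, ncard_conj]
    exact h3.trans h1.1

theorem main {p : ℕ} [Fact p.Prime] [CharP F p] {G : Type*} [Group G] [Finite G]
    (π : SpecialLinearGroup (Fin n) F →* G) (hN : π.range.Normal) (hidx : ¬ p ∣ π.range.index)
    {V : Type*} [AddCommGroup V] [Module ℂ V] [FiniteDimensional ℂ V]
    (P : Sylow p G) (ρ : Representation ℂ G V) (hρ : ρ.IsIrreducible) (hd : p ∣ finrank ℂ V)
    (hne : (Lin ρ (P : Subgroup G)).Nonempty) : p ≤ (Lin ρ (P : Subgroup G)).ncard := by
  obtain ⟨W, σ, hσ, hdW, hne', hle⟩ := constituent_sylow π.range hidx P ρ hρ hd hne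
  exact (main_surj π.rangeRestrict π.rangeRestrict_surjective
    (P.subtype (PiD_le π.range hidx P)) σ hσ hdW hne').trans hle

end Pool.Agent.H.MP_7d3ffc_al.DN
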