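import Pool.Agent.H.MP_7d3ffc_al.DN.Prd
import Pool.Agent.H.MP_7d3ffc_al.DN.Mn

/-!
# Module DN/Ppi: direct products of several groups

* `q1_surj`: as in `main_surj` of module DN/Mn: `ρ ∘ π` is irreducible (`Main_comp` in module DC/Main), `lin_map`.
* `q1_pi`: induction on `k`. `k = 0`: the product is trivial, an irreducible representation of it has
  dimension one (`Representation.IsIrreducible.finrank_eq_one_of_isMulCommutative` or because every
  subspace is stable), so `p` does not divide the dimension. `k + 1`: the product is isomorphic to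
  `S 0 × (∀ i, S i.succ)` (`Fin.consEquiv`, `Fin.insertNthEquiv` or define the homomorphism
  `(s, f) ↦ Fin.cons s f` by hand); the subgroup corresponds to `(U 0).prod (Subgroup.pi ..)`; use `q1_prod` and
  `q1_surj`.
* `main_prod`: `U i = UT (n i) (F i)`; `Q1At p (SL) (UT)` is `main_surj` for `π = MonoidHom.id _` and the
  Sylow subgroup `UT_pgroup.toSylow UT_index` (module DC/Syl). For `G`: `constituent_sylow` (module DC/PiD) for
  `N = π.range` as in the proof of `main`: reduces to the surjective homomorphism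
  `π.rangeRestrict : (∀ i, SL) → N`, the Sylow subgroup `P.subtype _` of `N`, which by `sylow_eq` (module DC/Red)
  is a conjugate of the image of `Subgroup.pi Set.univ U`; this is a `p`-group of index prime to `p` (its
  index in the product is the product of the indices, its cardinality the product of the
  cardinalities). Then `ncard_conj`, `nonempty_conj`, `q1_surj`.
-/

namespace Pool.Agent.H.MP_7d3ffc_al.DN

open Matrix Pool.Agent.H.MP_7d3ffc_al Pool.Agent.H.MP_7d3ffc_al.DC Module
open scoped Pointwise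

theorem q1_surj.{u, v, w} {p : ℕ} [Fact p.Prime] {S : Type u} {G : Type w} [Group S] [Group G]
    [Finite S] [Finite G] (π : S →* G) (hπ : Function.Surjective π) (U : Subgroup S)
    (hS : Q1At.{u, v} p S U) : Q1At.{w, v} p G (U.map π) := by
  intro V _ _ _ ρ hρ hd hne
  have h1 := lin_map ρ π U
  have h2 : p ≤ (Lin (ρ.comp π : Representation ℂ S V) U).ncard :=
    hS V _ (Main_comp π hπ ρ hρ _ fun _ => rfl) hd (h1.2 hne)
  exact h2.trans h1.1

/-- the homomorphism `(s, f) ↦ Fin.cons s f` -/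
private def Ppi_hom.{u} {k : ℕ} (S : Fin (k + 1) → Type u) [∀ i, Group (S i)] :
    S 0 × (∀ i : Fin k, S i.succ) →* ∀ i, S i where
  toFun x := Fin.cons x.1 x.2
  map_one' := by
    funext i
    refine Fin.cases ?_ (fun j => ?_) i
    · rfl
    · rfl
  map_mul' x y := by
    funext i
    refine Fin.cases ?_ (fun j => ?_) i
    · rfl
    · rfl

private theorem Ppi_surj.{u} {k : ℕ} (S : Fin (k + 1) → Type u) [∀ i, Group (S i)] :
    Function.Surjective (Ppi_hom S) := by
  intro f
  refine ⟨(f 0, fun i => f i.succ), ?_⟩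
  funext i
  refine Fin.cases ?_ (fun j => ?_) i
  · rfl
  · rfl

private theorem Ppi_map.{u} {k : ℕ} (S : Fin (k + 1) → Type u) [∀ i, Group (S i)]
    (U : ∀ i, Subgroup (S i)) :
    ((U 0).prod (Subgroup.pi Set.univ fun i : Fin k => U i.succ)).map (Ppi_hom S) =
      Subgroup.pi Set.univ U := by
  ext f
  constructor
  · rintro ⟨x, hx, rfl⟩
    have hx' := Subgroup.mem_prod.1 hx
    rw [Subgroup.mem_pi]
    intro i _
    refine Fin.cases ?_ (fun j => ?_) i
    · exact hx'.1
    · exact (Subgroup.mem_pi _).1 hx'.2 j trivial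
  · intro hf
    rw [Subgroup.mem_pi] at hf
    refine ⟨(f 0, fun i => f i.succ), Subgroup.mem_prod.2 ⟨hf 0 trivial, ?_⟩, ?_⟩
    · rw [Subgroup.mem_pi]
      exact fun j _ => hf j.succ trivial
    · funext i
      refine Fin.cases ?_ (fun j => ?_) i
      · rfl
      · rfl

theorem q1_pi.{u, v} {p : ℕ} [Fact p.Prime] (k : ℕ) : ∀ (S : Fin k → Type u)
    [∀ i, Group (S i)] [∀ i, Finite (S i)] (U : ∀ i, Subgroup (S i)),
    (∀ i, Q1At.{u, v} p (S i) (U i)) → Q1At.{u, v} p (∀ i, S i) (Subgroup.pi Set.univ U) := by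
  induction k with
  | zero =>
    intro S _ _ U _ V _ _ _ ρ hρ hd hne
    obtain ⟨μ, hμ⟩ := hne
    obtain ⟨v, hv0, _⟩ := (mem_Lin_iff ρ _ μ).1 hμ
    have h1 : finrank ℂ V = 1 := Main_fixed ρ hρ v hv0 fun g => by
      rw [Subsingleton.elim g 1, map_one]
      rfl
    rw [h1] at hd
    exact absurd (Nat.dvd_one.1 hd) (Fact.out : p.Prime).one_lt.ne'
  | succ k ih =>
    intro S _ _ U hU
    rw [← Ppi_map S U]
    exact q1_surj (Ppi_hom S) (Ppi_surj S) _
      (q1_prod (U 0) _ (hU 0) (ih (fun i => S i.succ) (fun i => U i.succ) fun i => hU i.succ))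

private theorem Ppi_card.{u} {k : ℕ} {S : Fin k → Type u} [∀ i, Group (S i)]
    (U : ∀ i, Subgroup (S i)) :
    Nat.card (Subgroup.pi Set.univ U) = ∏ i, Nat.card (U i) := by
  rw [← Nat.card_pi]
  exact Nat.card_congr
    { toFun := fun f i => ⟨f.1 i, f.2 i trivial⟩
      invFun := fun g => ⟨fun i => g i, fun i _ => (g i).2⟩
      left_inv := fun f => rfl
      right_inv := fun g => rfl }

private theorem Ppi_index.{u} {k : ℕ} {S : Fin k → Type u} [∀ i, Group (S i)]
    [∀ i, Finite (S i)] (U : ∀ i, Subgroup (S i)) :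
    (Subgroup.pi Set.univ U).index = ∏ i, (U i).index := by
  have h1 := (Subgroup.pi Set.univ U).index_mul_card
  rw [Ppi_card, Nat.card_pi] at h1
  have h2 : ∏ i, Nat.card (S i) = (∏ i, (U i).index) * ∏ i, Nat.card (U i) := by
    rw [← Finset.prod_mul_distrib]
    exact Finset.prod_congr rfl fun i _ => ((U i).index_mul_card).symm
  rw [h2] at h1
  exact Nat.eq_of_mul_eq_mul_right (Finset.prod_pos fun i _ => Nat.card_pos) h1

private theorem Ppi_pgroup.{u} {p : ℕ} [Fact p.Prime] {k : ℕ} {S : Fin k → Type u}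
    [∀ i, Group (S i)] [∀ i, Finite (S i)] (U : ∀ i, Subgroup (S i))
    (h : ∀ i, IsPGroup p (U i)) : IsPGroup p (Subgroup.pi Set.univ U) := by
  choose m hm using fun i => (h i).exists_card_eq
  refine IsPGroup.of_card (n := ∑ i, m i) ?_
  rw [Ppi_card, Finset.prod_congr rfl fun i _ => hm i, Finset.prod_pow_eq_pow_sum]

theorem main_prod {p : ℕ} [Fact p.Prime] {k : ℕ} (n : Fin k → ℕ) {F : Fin k → Type*}
    [∀ i, Field (F i)] [∀ i, Finite (F i)] [∀ i, CharP (F i) p] {G : Type*} [Group G] [Finite G]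
    (π : (∀ i, SpecialLinearGroup (Fin (n i)) (F i)) →* G) (hN : π.range.Normal)
    (hidx : ¬ p ∣ π.range.index) {V : Type*} [AddCommGroup V] [Module ℂ V]
    [FiniteDimensional ℂ V] (P : Sylow p G) (ρ : Representation ℂ G V) (hρ : ρ.IsIrreducible)
    (hd : p ∣ finrank ℂ V) (hne : (Lin ρ (P : Subgroup G)).Nonempty) :
    p ≤ (Lin ρ (P : Subgroup G)).ncard := by
  have hp : p.Prime := Fact.out
  obtain ⟨W, σ, hσ, hdW, hne', hle⟩ := constituent_sylow π.range hidx P ρ hρ hd hne
  refine le_trans ?_ hle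
  have hUi : ¬ p ∣ (Subgroup.pi Set.univ fun i => UT (n i) (F i)).index := by
    rw [Ppi_index]
    intro h
    obtain ⟨i, _, hi⟩ := (Prime.dvd_finsetProd_iff hp.prime _).1 h
    exact UT_index hi
  have hU : IsPGroup p (Subgroup.pi Set.univ fun i => UT (n i) (F i)) :=
    Ppi_pgroup _ fun i => UT_pgroup
  obtain ⟨g, hg⟩ := sylow_eq π.rangeRestrict (by
    rw [MonoidHom.range_eq_top.2 π.rangeRestrict_surjective, Subgroup.index_top]
    exact fun h => hp.one_lt.ne' (Nat.dvd_one.1 h))
    (Subgroup.pi Set.univ fun i => UT (n i) (F i)) hU hUi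
    (P.subtype (PiD_le π.range hidx P))
  have hg' : (P : Subgroup G).subgroupOf π.range =
      MulAut.conj g • (Subgroup.pi Set.univ fun i => UT (n i) (F i)).map π.rangeRestrict := hg
  rw [hg'] at hne' ⊢
  rw [ncard_conj]
  refine q1_surj π.rangeRestrict π.rangeRestrict_surjective _
    (q1_pi k _ _ fun i => ?_) W σ hσ hdW (nonempty_conj σ g _ hne')
  intro V' _ _ _ ρ' hρ' hd' hne''
  exact main_surj (MonoidHom.id _) Function.surjective_id (UT_pgroup.toSylow UT_index) ρ' hρ' hd'
    hne''

end Pool.Agent.H.MP_7d3ffc_al.DN
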