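import Pool.Agent.H.MP_7d3ffc_al.DC.PiB
import Pool.Agent.H.MP_7d3ffc_al.DC.Main
import Pool.Agent.H.MP_7d3ffc_al.TraceE

/-!
# Module DN/Prd: irreducible representations of a direct product

`ρ` is an irreducible representation of `S × T` on `V`.
* `burn`: for `x : V` and a functional `ξ` the operator `w ↦ ξ w • x` is a multiple of
  `∑ g, ξ (ρ g⁻¹ x) • ρ g` (`schur_rank_one` in module Core: its `c` satisfies `c * dim V = |G| * ξ w`, so
  `ξ w • x = (dim V / |G|) • ∑ g, ξ (ρ g⁻¹ x) • ρ g w`), so it is in the span of the `ρ g`; every operator is a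
  sum of such operators (take a basis `b` of `V`: `f = ∑ i, (w ↦ (b.coord i) w • f (b i))`).
* `comm_ops`: let `f` commute with the `ρ (a, 1)`, `h` with the `ρ (1, b)`. Claim: `f` is in the span of the
  `ρ (1, b)`, so it commutes with `h`. By `burn` `f = ∑ γ(a,b) ρ (a,b)`. Average over the conjugates by
  the `(s, 1)`: `f = ∑ γ(a,b) z_a ρ (1,b)` with `z_a = |S|⁻¹ ∑_s ρ (s a s⁻¹, 1)`, which commutes with
  all `ρ (s, t)`, so it is a scalar (Schur; or `schur_general` with the operator `ρ (a,1)` and the group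
  `S × T`: `∑_(s,t) ρ(s,t) ρ(a,1) ρ(s,t)⁻¹ = |T| ∑_s ρ (s a s⁻¹, 1)` is a scalar).
* `dim_prod`: `E1 = ι1 ∘ q1` (`ι1 : W1 → V` the inclusion) commutes with `S`, `E2 = ι2 ∘ q2` commutes with `T`;
  both are idempotent with trace `finrank W1`, `finrank W2`. By `comm_ops` `E1 E2 = E2 E1`, which is an
  idempotent with trace a natural number `t` (its rank: `LinearMap.IsProj.trace` or
  `LinearMap.IsIdempotentElem...`, search Mathlib). `∑ a : S, ρ(a,1) E2 ρ(a⁻¹,1)` commutes with `S × T`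
  (`schur_general` for `S × T` and `E2`: the sum over `S × T` is `|T|` times this one), so it is `c • id` with
  `c * dim V = |S| * dim W2`. Apply `q1 ∘ _ ∘ ι1` and take the trace: each term has the trace of
  `σ1(a) q1 E2 ι1 σ1(a)⁻¹`, i.e. of `q1 E2 ι1`, i.e. `trace (E1 E2) = t`: `c * dim W1 = |S| * t`. So
  `dim W1 * dim W2 = t * dim V` (multiply: `c * dim V * dim W1 = |S| * dim W2 * dim W1 = |S| * t * dim V`).
* `q1_prod`: let `ρ` be as in `Q1At` for `S × T`, `μ ∈ Lin ρ (U.prod U')` with eigenvector `y`. `exists_constituent`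
  (module PiB) for the group `S × T` and `N = ⊤.prod ⊥` or for the group `S`, the representation
  `ρ ∘ inl` and `N = ⊤` gives `W1`, `q1` with `q1 y ≠ 0`, an eigenvector of `U`; the same for `T`. By `dim_prod`
  and `p` prime one of the dimensions, say of `W1`, is divisible by `p`; `W1` is an irreducible representation
  of `S` (compose `σ1` with `S ≃* ⊤`; see `Main_comp` in module DC/Main for the irreducibility), so
  it has `p` different linear characters of `U` (as constituents). Let `μ1` be one of them. The space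
  `eigSp` of `μ1` for `U` in `V` (through `inl`) is not `0` and it is stable under `T`; as
  `μ2 := μ` restricted to `U'` need not occur in it, argue as follows: `V` is spanned by the
  `ρ (a, 1) (ρ (1, b) w)`, so there is ... it is enough to find a linear character of `U'` in this space:
  `y` itself gives one in `V`: let `h` be the projection `q2`-operator `E2 = ι2 q2` (it commutes with `T`) ...
  PRECISELY: let `e1` be the projection to the `μ1`-eigenspace of `U` (`proj` for `U` and `ρ ∘ inl`), it is in the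
  span of the `ρ (a, 1)`. The subspace `{v | ∀ a, e1 (ρ (a,1) v) = 0}` is `S × T`-stable and not `V`
  (`e1 ≠ 0`), so it is `0`; so there is `a` with `w := e1 (ρ (a,1) y) ≠ 0`. `w` is an eigenvector of `U` for `μ1`
  and of `U'` for the restriction of `μ`, because `e1 ρ (a,1)` commutes with all `ρ (1, b)`. So the character
  `(u, u') ↦ μ1(u) μ(1,u')` is in `Lin ρ (U.prod U')`. Different `μ1` give different characters.
-/

namespace Pool.Agent.H.MP_7d3ffc_al.DN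

open Pool.Agent.H.MP_7d3ffc_al Pool.Agent.H.MP_7d3ffc_al.DC Module

/-- the property of Q1 for the subgroup `U` of `S` -/
def Q1At.{u, v} (p : ℕ) (S : Type u) [Group S] (U : Subgroup S) : Prop :=
  ∀ (V : Type v) [AddCommGroup V] [Module ℂ V] [FiniteDimensional ℂ V]
    (ρ : Representation ℂ S V), ρ.IsIrreducible → p ∣ finrank ℂ V → (Lin ρ U).Nonempty →
      p ≤ (Lin ρ U).ncard

variable {S T : Type*} [Group S] [Group T] [Finite S] [Finite T] {V : Type*} [AddCommGroup V]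
  [Module ℂ V] [FiniteDimensional ℂ V]

theorem burn {G : Type*} [Group G] [Finite G] (ρ : Representation ℂ G V) (hρ : ρ.IsIrreducible)
    (f : V →ₗ[ℂ] V) : f ∈ Submodule.span ℂ (Set.range fun g : G => (ρ g : V →ₗ[ℂ] V)) := by
  classical
  have : Fintype G := Fintype.ofFinite G
  have hG : (Nat.card G : ℂ) ≠ 0 := Nat.cast_ne_zero.2 Nat.card_pos.ne'
  have hrank : ∀ (ξ : V →ₗ[ℂ] ℂ) (x : V), ξ.smulRight x ∈
      Submodule.span ℂ (Set.range fun g : G => (ρ g : V →ₗ[ℂ] V)) := by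
    intro ξ x
    have e : ξ.smulRight x = ((finrank ℂ V : ℂ) / (Nat.card G : ℂ)) •
        ∑ g : G, ξ (ρ g⁻¹ x) • (ρ g : V →ₗ[ℂ] V) := by
      ext w
      obtain ⟨c, hc, hcd⟩ := schur_rank_one ρ hρ ξ w
      rw [LinearMap.smulRight_apply, LinearMap.smul_apply, LinearMap.sum_apply]
      have h1 : ∑ g : G, (ξ (ρ g⁻¹ x) • (ρ g : V →ₗ[ℂ] V)) w = c • x := by
        rw [← hc x]
        rfl
      rw [h1, smul_smul]
      congr 1
      rw [div_mul_eq_mul_div, eq_div_iff hG, mul_comm (finrank ℂ V : ℂ) c, hcd, mul_comm]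
    rw [e]
    exact Submodule.smul_mem _ _ (Submodule.sum_mem _ fun g _ =>
      Submodule.smul_mem _ _ (Submodule.subset_span ⟨g, rfl⟩))
  obtain ⟨b⟩ : Nonempty (Basis (Fin (finrank ℂ V)) ℂ V) := ⟨Module.finBasis ℂ V⟩
  have e : f = ∑ i, (b.coord i).smulRight (f (b i)) := by
    refine b.ext fun j => ?_
    rw [LinearMap.sum_apply, Finset.sum_eq_single j]
    · rw [LinearMap.smulRight_apply, Basis.coord_apply, Basis.repr_self, Finsupp.single_eq_same,
        one_smul]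
    · intro i _ hij
      rw [LinearMap.smulRight_apply, Basis.coord_apply, Basis.repr_self,
        Finsupp.single_eq_of_ne hij, zero_smul]
    · intro h
      exact absurd (Finset.mem_univ j) h
  rw [e]
  exact Submodule.sum_mem _ fun i _ => hrank _ _

omit [Finite S] in
/-- the average of an operator which commutes with `T` over the conjugates by `S` -/
theorem Prd_avg [Fintype S] (ρ : Representation ℂ (S × T) V) (hρ : ρ.IsIrreducible)
    (F : V →ₗ[ℂ] V) (hF : ∀ (b : T) (v : V), F (ρ (1, b) v) = ρ (1, b) (F v)) :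
    ∃ c : ℂ, (∀ v : V, ∑ s : S, ρ (s, 1) (F (ρ (s⁻¹, 1) v)) = c • v) ∧
      c * (finrank ℂ V : ℂ) = (Nat.card S : ℂ) * LinearMap.trace ℂ V F := by
  classical
  have : Fintype T := Fintype.ofFinite T
  have hT : (Nat.card T : ℂ) ≠ 0 := Nat.cast_ne_zero.2 Nat.card_pos.ne'
  obtain ⟨c, hc, hcd⟩ := schur_general ρ hρ F
  refine ⟨c / (Nat.card T : ℂ), fun v => ?_, ?_⟩
  · have h1 : ∀ (s : S) (t : T), ρ (s, t) (F (ρ (s, t)⁻¹ v)) = ρ (s, 1) (F (ρ (s⁻¹, 1) v)) := by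
      intro s t
      have e1 : ((s, t)⁻¹ : S × T) = (1, t⁻¹) * (s⁻¹, 1) := by
        rw [Prod.mk_mul_mk, one_mul, mul_one, Prod.inv_mk]
      have e2 : ((s, t) : S × T) = (s, 1) * (1, t) := by
        rw [Prod.mk_mul_mk, one_mul, mul_one]
      rw [e1, map_mul, Module.End.mul_apply, hF, e2, map_mul, Module.End.mul_apply,
        ← Module.End.mul_apply (ρ (1, t)) (ρ (1, t⁻¹)), ← map_mul, Prod.mk_mul_mk, one_mul,
        mul_inv_cancel]
      have e3 : ((1, 1) : S × T) = 1 := rfl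
      rw [e3, map_one, Module.End.one_apply]
    have h2 := congrArg (fun L : V →ₗ[ℂ] V => L v) hc
    simp only [LinearMap.sum_apply, LinearMap.smul_apply, LinearMap.id_apply,
      LinearMap.comp_apply] at h2
    rw [Fintype.sum_prod_type] at h2
    simp only [h1, Finset.sum_const, Finset.card_univ] at h2
    rw [← Finset.smul_sum, ← Nat.card_eq_fintype_card, ← Nat.cast_smul_eq_nsmul ℂ] at h2
    rw [div_eq_inv_mul, mul_smul, ← h2, smul_smul, inv_mul_cancel₀ hT, one_smul]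
  · rw [div_mul_eq_mul_div, hcd, Nat.card_prod, Nat.cast_mul, div_eq_iff hT]
    ring

theorem comm_ops (ρ : Representation ℂ (S × T) V) (hρ : ρ.IsIrreducible) (f h : V →ₗ[ℂ] V)
    (hf : ∀ (a : S) (v : V), f (ρ (a, 1) v) = ρ (a, 1) (f v))
    (hh : ∀ (b : T) (v : V), h (ρ (1, b) v) = ρ (1, b) (h v)) (v : V) : f (h v) = h (f v) := by
  classical
  have : Fintype S := Fintype.ofFinite S
  have hS : (Nat.card S : ℂ) ≠ 0 := Nat.cast_ne_zero.2 Nat.card_pos.ne'
  have key : ∀ F ∈ Submodule.span ℂ (Set.range fun g : S × T => (ρ g : V →ₗ[ℂ] V)), ∀ v : V,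
      ∑ s : S, h (ρ (s, 1) (F (ρ (s⁻¹, 1) v))) = ∑ s : S, ρ (s, 1) (F (ρ (s⁻¹, 1) (h v))) := by
    intro F hF
    induction hF using Submodule.span_induction with
    | mem F hF =>
      obtain ⟨⟨a, b⟩, rfl⟩ := hF
      intro v
      obtain ⟨c, hc, -⟩ := Prd_avg ρ hρ (ρ (a, 1)) (by
        intro b v
        rw [← Module.End.mul_apply, ← Module.End.mul_apply, ← map_mul, ← map_mul, Prod.mk_mul_mk,
          Prod.mk_mul_mk, one_mul, one_mul, mul_one, mul_one])
      have h1 : ∀ (s : S) (w : V), ρ (s, 1) (ρ (a, b) (ρ (s⁻¹, 1) w)) =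
          ρ (s, 1) (ρ (a, 1) (ρ (s⁻¹, 1) (ρ (1, b) w))) := by
        intro s w
        simp only [← Module.End.mul_apply, ← map_mul, Prod.mk_mul_mk, one_mul, mul_one]
      have h2 : ∀ w : V, ∑ s : S, ρ (s, 1) (ρ (a, b) (ρ (s⁻¹, 1) w)) = c • ρ (1, b) w := by
        intro w
        simp only [h1]
        exact hc _
      rw [← map_sum]
      show h (∑ s : S, ρ (s, 1) (ρ (a, b) (ρ (s⁻¹, 1) v))) =
        ∑ s : S, ρ (s, 1) (ρ (a, b) (ρ (s⁻¹, 1) (h v)))
      rw [h2, h2, map_smul, hh]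
    | zero =>
      intro v
      simp
    | add F F' _ _ h1 h2 =>
      intro v
      simp only [LinearMap.add_apply, map_add, Finset.sum_add_distrib, h1, h2]
    | smul c F _ h1 =>
      intro v
      simp only [LinearMap.smul_apply, map_smul, ← Finset.smul_sum, h1]
  have h1 := key f (burn ρ hρ f) v
  have h2 : ∀ (s : S) (w : V), ρ (s, 1) (f (ρ (s⁻¹, 1) w)) = f w := by
    intro s w
    rw [hf, ← Module.End.mul_apply, ← map_mul, Prod.mk_mul_mk, one_mul, mul_inv_cancel]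
    have e3 : ((1, 1) : S × T) = 1 := rfl
    rw [e3, map_one, Module.End.one_apply]
  simp only [h2, Finset.sum_const, Finset.card_univ] at h1
  rw [← Nat.card_eq_fintype_card, ← Nat.cast_smul_eq_nsmul ℂ, ← Nat.cast_smul_eq_nsmul ℂ] at h1
  exact (smul_right_injective V hS h1).symm

/-- the trace of a projection -/
theorem Prd_trace (W : Submodule ℂ V) (q : V →ₗ[ℂ] W) (h : ∀ x : W, q x = x) :
    LinearMap.trace ℂ V (W.subtype ∘ₗ q) = (finrank ℂ W : ℂ) := by
  rw [LinearMap.trace_comp_comm']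
  have e : q ∘ₗ W.subtype = LinearMap.id := by
    ext x
    show ((q x : W) : V) = x
    rw [h]
  rw [e, LinearMap.trace_id]

/-- the trace of an idempotent -/
theorem Prd_idem (E : V →ₗ[ℂ] V) (h : ∀ x : V, E (E x) = E x) :
    ∃ t : ℕ, LinearMap.trace ℂ V E = (t : ℂ) := by
  refine ⟨finrank ℂ (LinearMap.range E), ?_⟩
  rw [← Prd_trace (LinearMap.range E) E.rangeRestrict]
  · rfl
  · rintro ⟨_, x, rfl⟩
    exact Subtype.ext (h x)

theorem dim_prod (ρ : Representation ℂ (S × T) V) (hρ : ρ.IsIrreducible) (W1 W2 : Submodule ℂ V)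
    (q1 : V →ₗ[ℂ] W1) (q2 : V →ₗ[ℂ] W2) (h1 : ∀ x : W1, q1 x = x) (h2 : ∀ x : W2, q2 x = x)
    (hc1 : ∀ (a : S) (v : V), (q1 (ρ (a, 1) v) : V) = ρ (a, 1) (q1 v))
    (hc2 : ∀ (b : T) (v : V), (q2 (ρ (1, b) v) : V) = ρ (1, b) (q2 v)) :
    finrank ℂ V ∣ finrank ℂ W1 * finrank ℂ W2 := by
  classical
  have : Fintype S := Fintype.ofFinite S
  have hS : (Nat.card S : ℂ) ≠ 0 := Nat.cast_ne_zero.2 Nat.card_pos.ne'
  obtain ⟨E1, hE1⟩ : ∃ E1 : V →ₗ[ℂ] V, E1 = W1.subtype ∘ₗ q1 := ⟨_, rfl⟩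
  obtain ⟨E2, hE2⟩ : ∃ E2 : V →ₗ[ℂ] V, E2 = W2.subtype ∘ₗ q2 := ⟨_, rfl⟩
  have a1 : ∀ x, E1 x = (q1 x : V) := by
    intro x
    rw [hE1]
    rfl
  have a2 : ∀ x, E2 x = (q2 x : V) := by
    intro x
    rw [hE2]
    rfl
  have hcomm : ∀ x, E1 (E2 x) = E2 (E1 x) := by
    intro x
    refine comm_ops ρ hρ E1 E2 ?_ ?_ x
    · intro a v
      rw [a1, a1, hc1]
    · intro b v
      rw [a2, a2, hc2]
  have b1 : ∀ x, E1 (E1 x) = E1 x := by
    intro x
    rw [a1 (E1 x), a1 x, h1]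
  have b2 : ∀ x, E2 (E2 x) = E2 x := by
    intro x
    rw [a2 (E2 x), a2 x, h2]
  obtain ⟨t, ht⟩ := Prd_idem (E1 ∘ₗ E2) (by
    intro x
    rw [LinearMap.comp_apply, LinearMap.comp_apply, ← hcomm (E2 x), b2, hcomm x, hcomm, b1])
  obtain ⟨c, hc, hcd⟩ := Prd_avg ρ hρ E2 (by
    intro b v
    rw [a2, a2, hc2])
  have t1 : LinearMap.trace ℂ V E1 = (finrank ℂ W1 : ℂ) := by
    rw [hE1]
    exact Prd_trace W1 q1 h1
  have t2 : LinearMap.trace ℂ V E2 = (finrank ℂ W2 : ℂ) := by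
    rw [hE2]
    exact Prd_trace W2 q2 h2
  have hsum : ∑ s : S, ρ (s, 1) ∘ₗ (E1 ∘ₗ E2) ∘ₗ ρ (s⁻¹, 1) = c • E1 := by
    ext v
    rw [LinearMap.sum_apply, LinearMap.smul_apply, ← map_smul, ← hc v, map_sum]
    refine Finset.sum_congr rfl fun s _ => ?_
    simp only [LinearMap.comp_apply]
    rw [a1, a1, hc1]
  have htr := congrArg (LinearMap.trace ℂ V) hsum
  have h3 : ∀ s : S, LinearMap.trace ℂ V (ρ (s, 1) ∘ₗ (E1 ∘ₗ E2) ∘ₗ ρ (s⁻¹, 1)) = (t : ℂ) := by
    intro s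
    rw [LinearMap.trace_comp_comm', LinearMap.comp_assoc,
      ← Module.End.mul_eq_comp (ρ (s⁻¹, 1)) (ρ (s, 1)), ← map_mul, Prod.mk_mul_mk, one_mul,
      inv_mul_cancel]
    have e3 : ((1, 1) : S × T) = 1 := rfl
    rw [e3, map_one, Module.End.one_eq_id, LinearMap.comp_id, ht]
  rw [map_sum] at htr
  simp only [h3, Finset.sum_const, Finset.card_univ, map_smul, smul_eq_mul, nsmul_eq_mul] at htr
  rw [← Nat.card_eq_fintype_card, t1] at htr
  rw [t2] at hcd
  refine ⟨t, ?_⟩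
  have h4 : (Nat.card S : ℂ) * ((finrank ℂ W1 : ℂ) * (finrank ℂ W2 : ℂ)) =
      (Nat.card S : ℂ) * ((finrank ℂ V : ℂ) * (t : ℂ)) := by
    linear_combination (-(finrank ℂ W1 : ℂ)) * hcd - (finrank ℂ V : ℂ) * htr
  have h5 := mul_left_cancel₀ hS h4
  exact_mod_cast h5

/-- constituents for a homomorphism -/
theorem Prd_con {G A : Type*} [Group G] [Group A] [Finite A] (i : A →* G)
    (ρ : Representation ℂ G V) (y : V) (hy : y ≠ 0) :
    ∃ (W : Submodule ℂ V) (σ : Representation ℂ A W) (q : V →ₗ[ℂ] W), σ.IsIrreducible ∧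
      (∀ (a : A) (x : W), ((σ a x : W) : V) = ρ (i a) x) ∧
      (∀ (a : A) (z : V), q (ρ (i a) z) = σ a (q z)) ∧ (∀ x : W, q x = x) ∧ q y ≠ 0 := by
  obtain ⟨τ, hτ⟩ : ∃ τ : Representation ℂ A V, ∀ a, τ a = ρ (i a) := ⟨ρ.comp i, fun _ => rfl⟩
  obtain ⟨W, σ, q, h1, h2, h3, h4, h5⟩ := exists_constituent (⊤ : Subgroup A) τ y hy
  obtain ⟨σ', hσ'⟩ : ∃ σ' : Representation ℂ A W, ∀ a, σ' a = σ ⟨a, Subgroup.mem_top a⟩ :=
    ⟨σ.comp (Subgroup.topEquiv.symm : A ≃* (⊤ : Subgroup A)).toMonoidHom, fun _ => rfl⟩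
  refine ⟨W, σ', q, ?_, ?_, ?_, h4, h5⟩
  · refine Main_comp (Subgroup.topEquiv.symm : A ≃* (⊤ : Subgroup A)).toMonoidHom
      (Subgroup.topEquiv.symm : A ≃* (⊤ : Subgroup A)).surjective σ h1 σ' ?_
    intro s
    rw [hσ']
    rfl
  · intro a x
    rw [hσ', h2, hτ]
  · intro a z
    rw [hσ', ← hτ]
    exact h3 ⟨a, Subgroup.mem_top a⟩ z

/-- an eigenvector for both factors -/
theorem Prd_vec {G A B : Type*} [Group G] [Group A] [Group B] [Finite A] (i : A →* G)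
    (j : B →* G) (hij : ∀ a b, i a * j b = j b * i a) (hsur : ∀ g, ∃ a b, g = i a * j b)
    (ρ : Representation ℂ G V) (hρ : ρ.IsIrreducible) (U : Subgroup A) (U' : Subgroup B)
    (α : U →* ℂˣ) (x : V) (hx : x ≠ 0) (hx1 : ∀ u : U, ρ (i u) x = ((α u : ℂˣ) : ℂ) • x)
    (ν : U' → ℂ) (y : V) (hy : y ≠ 0) (hy1 : ∀ u : U', ρ (j u) y = ν u • y) :
    ∃ w : V, w ≠ 0 ∧ (∀ u : U, ρ (i u) w = ((α u : ℂˣ) : ℂ) • w) ∧
      ∀ u : U', ρ (j u) w = ν u • w := by
  classical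
  have : Fintype U := Fintype.ofFinite U
  obtain ⟨τ, hτ⟩ : ∃ τ : Representation ℂ A V, ∀ a, τ a = ρ (i a) := ⟨ρ.comp i, fun _ => rfl⟩
  obtain ⟨e, he⟩ : ∃ e : V →ₗ[ℂ] V, e = proj τ U α := ⟨_, rfl⟩
  have hex : e x = x := by
    rw [he]
    refine proj_eq_self τ U α x fun u => ?_
    rw [hτ, hx1]
  have hcomm : ∀ (b : B) (v : V), e (ρ (j b) v) = ρ (j b) (e v) := by
    intro b v
    rw [he, proj_apply, proj_apply, map_smul, map_sum]
    congr 1
    refine Finset.sum_congr rfl fun u _ => ?_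
    rw [map_smul, hτ, ← Module.End.mul_apply, ← Module.End.mul_apply, ← map_mul, ← map_mul, hij]
  obtain ⟨η, hη⟩ : ∃ η : Module.Dual ℂ V, η x ≠ 0 := by
    by_contra h
    push Not at h
    exact hx ((Module.forall_dual_apply_eq_zero_iff ℂ x).mp h)
  obtain ⟨g, hg⟩ := exists_ne_zero ρ hρ (η ∘ₗ e) (by
    intro h
    have h1 := congrArg (fun L : V →ₗ[ℂ] ℂ => L x) h
    simp only [LinearMap.comp_apply, LinearMap.zero_apply, hex] at h1
    exact hη h1) y hy
  obtain ⟨a, b, rfl⟩ := hsur g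
  rw [hij, map_mul, Module.End.mul_apply, LinearMap.comp_apply, hcomm] at hg
  refine ⟨e (ρ (i a) y), ?_, ?_, ?_⟩
  · intro h
    rw [h, map_zero, map_zero] at hg
    exact hg rfl
  · intro u
    have h1 := rho_proj τ U α (ρ (i a) y) u
    rw [hτ, ← he] at h1
    exact h1
  · intro u
    rw [← hcomm, ← Module.End.mul_apply (ρ (j u)), ← map_mul, ← hij, map_mul, Module.End.mul_apply,
      hy1, map_smul, map_smul]

/-- the character of the product -/
noncomputable def Prd_chr {S T : Type*} [Group S] [Group T] {U : Subgroup S} {U' : Subgroup T}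
    (α : U →* ℂˣ) (β : U' →* ℂˣ) : U.prod U' →* ℂˣ where
  toFun x := α ⟨x.1.1, x.2.1⟩ * β ⟨x.1.2, x.2.2⟩
  map_one' := by
    have e1 : α ⟨((1 : U.prod U') : S × T).1, (1 : U.prod U').2.1⟩ = α 1 := rfl
    have e2 : β ⟨((1 : U.prod U') : S × T).2, (1 : U.prod U').2.2⟩ = β 1 := rfl
    rw [e1, e2, map_one, map_one, mul_one]
  map_mul' x y := by
    have e1 : α ⟨((x * y : U.prod U') : S × T).1, (x * y : U.prod U').2.1⟩ =
        α (⟨x.1.1, x.2.1⟩ * ⟨y.1.1, y.2.1⟩) := rfl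
    have e2 : β ⟨((x * y : U.prod U') : S × T).2, (x * y : U.prod U').2.2⟩ =
        β (⟨x.1.2, x.2.2⟩ * ⟨y.1.2, y.2.2⟩) := rfl
    rw [e1, e2, map_mul, map_mul, mul_mul_mul_comm]

theorem Prd_apply {S T : Type*} [Group S] [Group T] {U : Subgroup S} {U' : Subgroup T}
    (α : U →* ℂˣ) (β : U' →* ℂˣ) (x : U.prod U') :
    Prd_chr α β x = α ⟨x.1.1, x.2.1⟩ * β ⟨x.1.2, x.2.2⟩ := rfl

theorem Prd_left {S T : Type*} [Group S] [Group T] {U : Subgroup S} {U' : Subgroup T}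
    (α : U →* ℂˣ) (β : U' →* ℂˣ) (u : U) :
    Prd_chr α β ⟨((u : S), 1), u.2, U'.one_mem⟩ = α u := by
  rw [Prd_apply]
  have e : β ⟨((((u : S), (1 : T))) : S × T).2, U'.one_mem⟩ = β 1 := rfl
  rw [e, map_one, mul_one]

theorem Prd_right {S T : Type*} [Group S] [Group T] {U : Subgroup S} {U' : Subgroup T}
    (α : U →* ℂˣ) (β : U' →* ℂˣ) (u : U') :
    Prd_chr α β ⟨(1, (u : T)), U.one_mem, u.2⟩ = β u := by
  rw [Prd_apply]
  have e : α ⟨((((1 : S), (u : T))) : S × T).1, U.one_mem⟩ = α 1 := rfl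
  rw [e, map_one, one_mul]

theorem Prd_mem (ρ : Representation ℂ (S × T) V) {U : Subgroup S} {U' : Subgroup T}
    (α : U →* ℂˣ) (β : U' →* ℂˣ) (w : V) (hw : w ≠ 0)
    (h1 : ∀ u : U, ρ ((u : S), 1) w = ((α u : ℂˣ) : ℂ) • w)
    (h2 : ∀ u : U', ρ (1, (u : T)) w = ((β u : ℂˣ) : ℂ) • w) :
    Prd_chr α β ∈ Lin ρ (U.prod U') := by
  rw [mem_Lin_iff]
  refine ⟨w, hw, ?_⟩
  rintro ⟨⟨a, b⟩, ha, hb⟩
  have e : ((a, b) : S × T) = (1, b) * (a, 1) := by
    rw [Prod.mk_mul_mk, one_mul, mul_one]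
  rw [Prd_apply]
  show ρ (a, b) w = ((α ⟨a, ha⟩ * β ⟨b, hb⟩ : ℂˣ) : ℂ) • w
  rw [e, map_mul, Module.End.mul_apply, h1 ⟨a, ha⟩, map_smul, h2 ⟨b, hb⟩, smul_smul, Units.val_mul]

theorem q1_prod.{u, v, w} {p : ℕ} [Fact p.Prime] {S : Type u} {T : Type w} [Group S] [Group T]
    [Finite S] [Finite T] (U : Subgroup S) (U' : Subgroup T) (hS : Q1At.{u, v} p S U)
    (hT : Q1At.{w, v} p T U') : Q1At.{max u w, v} p (S × T) (U.prod U') := by
  intro V _ _ _ ρ hρ hp hne
  classical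
  obtain ⟨μ, hμ⟩ := hne
  rw [mem_Lin_iff] at hμ
  obtain ⟨y, hy, hy1⟩ := hμ
  obtain ⟨α0, hα0⟩ : ∃ α0 : U →* ℂˣ, ∀ u : U, ρ ((u : S), 1) y = ((α0 u : ℂˣ) : ℂ) • y := by
    refine ⟨⟨⟨fun u => μ ⟨((u : S), 1), u.2, U'.one_mem⟩, ?_⟩, ?_⟩, fun u => ?_⟩
    · rw [← map_one μ]
      rfl
    · intro u u'
      rw [← map_mul μ]
      refine congrArg μ (Subtype.ext (Prod.ext rfl ?_))
      exact (mul_one (1 : T)).symm
    · exact hy1 ⟨((u : S), 1), u.2, U'.one_mem⟩
  obtain ⟨β0, hβ0⟩ : ∃ β0 : U' →* ℂˣ, ∀ u : U', ρ (1, (u : T)) y = ((β0 u : ℂˣ) : ℂ) • y := by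
    refine ⟨⟨⟨fun u => μ ⟨(1, (u : T)), U.one_mem, u.2⟩, ?_⟩, ?_⟩, fun u => ?_⟩
    · rw [← map_one μ]
      rfl
    · intro u u'
      rw [← map_mul μ]
      refine congrArg μ (Subtype.ext (Prod.ext ?_ rfl))
      exact (mul_one (1 : S)).symm
    · exact hy1 ⟨(1, (u : T)), U.one_mem, u.2⟩
  obtain ⟨W1, σ1, q1, a1, a2, a3, a4, a5⟩ := Prd_con (MonoidHom.inl S T) ρ y hy
  obtain ⟨W2, σ2, q2, b1, b2, b3, b4, b5⟩ := Prd_con (MonoidHom.inr S T) ρ y hy
  have hcom1 : ∀ (a : S) (b : T), MonoidHom.inl S T a * MonoidHom.inr S T b =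
      MonoidHom.inr S T b * MonoidHom.inl S T a := by
    intro a b
    refine Prod.ext ?_ ?_
    · show a * 1 = 1 * a
      rw [mul_one, one_mul]
    · show 1 * b = b * 1
      rw [mul_one, one_mul]
  have hsur1 : ∀ g : S × T, ∃ (a : S) (b : T), g = MonoidHom.inl S T a * MonoidHom.inr S T b := by
    rintro ⟨a, b⟩
    refine ⟨a, b, Prod.ext ?_ ?_⟩
    · show a = a * 1
      rw [mul_one]
    · show b = 1 * b
      rw [one_mul]
  have hdiv := dim_prod ρ hρ W1 W2 q1 q2 a4 b4 (by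
      intro a v
      have h := congrArg Subtype.val (a3 a v)
      rw [a2] at h
      exact h) (by
      intro b v
      have h := congrArg Subtype.val (b3 b v)
      rw [b2] at h
      exact h)
  have hfin : Finite (U.prod U' →* ℂˣ) := Cnt_finite _
  rcases (Nat.Prime.dvd_mul (Fact.out : p.Prime)).1 (hp.trans hdiv) with hd | hd
  · have h1 : p ≤ (Lin σ1 U).ncard := by
      refine hS W1 σ1 a1 hd ⟨α0, ?_⟩
      rw [mem_Lin_iff]
      refine ⟨q1 y, a5, fun u => ?_⟩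
      rw [← a3]
      have h := hα0 u
      show q1 (ρ ((u : S), 1) y) = _
      rw [h, map_smul]
    refine h1.trans (Set.ncard_le_ncard_of_injOn (fun α => Prd_chr α β0) ?_ ?_ (Set.toFinite _))
    · intro α hα
      rw [mem_Lin_iff] at hα
      obtain ⟨x, hx, hx1⟩ := hα
      obtain ⟨w, hw, hw1, hw2⟩ := Prd_vec (MonoidHom.inl S T) (MonoidHom.inr S T) hcom1 hsur1 ρ hρ
        U U' α (x : V) (fun h => hx (Subtype.ext h)) (by
          intro u
          rw [← a2, hx1 u]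
          rfl) (fun u => ((β0 u : ℂˣ) : ℂ)) y hy hβ0
      exact Prd_mem ρ α β0 w hw hw1 hw2
    · intro α _ α' _ h
      refine MonoidHom.ext fun u => ?_
      have h1 := DFunLike.congr_fun h (⟨((u : S), 1), u.2, U'.one_mem⟩ : U.prod U')
      simp only [Prd_left] at h1
      exact h1
  · have h1 : p ≤ (Lin σ2 U').ncard := by
      refine hT W2 σ2 b1 hd ⟨β0, ?_⟩
      rw [mem_Lin_iff]
      refine ⟨q2 y, b5, fun u => ?_⟩
      rw [← b3]
      have h := hβ0 u
      show q2 (ρ (1, (u : T)) y) = _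
      rw [h, map_smul]
    refine h1.trans (Set.ncard_le_ncard_of_injOn (fun β => Prd_chr α0 β) ?_ ?_ (Set.toFinite _))
    · intro β hβ
      rw [mem_Lin_iff] at hβ
      obtain ⟨x, hx, hx1⟩ := hβ
      obtain ⟨w, hw, hw1, hw2⟩ := Prd_vec (MonoidHom.inr S T) (MonoidHom.inl S T)
        (fun a b => (hcom1 b a).symm)
        (fun g => by
          obtain ⟨a, b, h⟩ := hsur1 g
          exact ⟨b, a, by rw [h, hcom1]⟩) ρ hρ
        U' U β (x : V) (fun h => hx (Subtype.ext h)) (by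
          intro u
          rw [← b2, hx1 u]
          rfl) (fun u => ((α0 u : ℂˣ) : ℂ)) y hy hα0
      exact Prd_mem ρ α0 β w hw hw2 hw1
    · intro β _ β' _ h
      refine MonoidHom.ext fun u => ?_
      have h1 := DFunLike.congr_fun h (⟨(1, (u : T)), U.one_mem, u.2⟩ : U.prod U')
      simp only [Prd_right] at h1
      exact h1

end Pool.Agent.H.MP_7d3ffc_al.DN
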